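import Pool.Agent.BICS.Base

/-!
# Grids with an apex, sets of all elements touching a square  (problem MP_5165fa_co, Theorem W-co)
-/

open Set BIC
open scoped Matroid

namespace BICS

variable {α V : Type*}

/-- The elements of `E` with at least one end in `W`. -/
def tch (E : Set α) (ends : α → Sym2 V) (W : Set V) : Set α :=
  {e | e ∈ E ∧ ∃ v ∈ ends e, v ∈ W}

/-- `E` carries, by `ends`, the plain `n × n` grid with corner `(x, y)`, either alone or together
with the full star of an apex `ap`. -/
structure SGrd (E : Set α) (ends : α → Sym2 (ℕ × ℕ)) (x y n : ℕ) (ap : ℕ × ℕ) : Prop where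
  inj : InjOn ends E
  grd : Grd (ins E ends (rect x y n n)) ends x y n n
  nap : ap ∉ rect x y n n
  out : ∀ e ∈ E, e ∈ ins E ends (rect x y n n) ∨ ∃ p ∈ rect x y n n, ends e = s(p, ap)
  star : (∀ e ∈ E, e ∈ ins E ends (rect x y n n)) ∨
    ∀ p ∈ rect x y n n, ∃ e ∈ E, ends e = s(p, ap)

/-- Sets of vertices whose removal keeps the rest of the grid spanned: they keep away from the
border, and a vertex outside `W` whose left neighbour is in `W` has its upper neighbour
outside `W`. (Unions of squares and single vertices which are far from each other.) -/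
def Holes (x y n : ℕ) (W : Set (ℕ × ℕ)) : Prop :=
  (∀ p ∈ W, x + 2 ≤ p.1 ∧ p.1 + 1 < x + n ∧ y + 2 ≤ p.2 ∧ p.2 + 1 < y + n) ∧
    ∀ i j : ℕ, (i, j) ∈ W → (i + 1, j) ∉ W → (i + 1, j + 1) ∉ W

end BICS
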